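import Pool.Agent.Helper46.NU.Main
import Pool.Agent.Helper59.NU.Siz
import Pool.Agent.Helper62.NU.MZ
import Pool.Agent.Helper45.NU.Lc
import Pool.Agent.Helper85.NU.BM
import Pool.Agent.Helper65.NU.CYL
import Pool.Agent.Helper93.NU.Ovr
import Pool.Agent.Helper96.NU.LB1
import Pool.Agent.Helper69.NU.UPD
import Pool.Agent.Helper28.NU.LOC
import Pool.Agent.Helper77.NU.LBS
import Pool.Agent.Helper3.NU.LB
import Pool.Agent.Helper8.NU.BAI
import Pool.Agent.Helper86.NU.Star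
import Pool.Agent.Helper27.NU.CCC
import Pool.Agent.Helper33.NU.ALG
import Pool.Agent.Helper6.NU.EHOM
import Pool.Agent.Helper30.NU.NAT
import Pool.Agent.Helper97.NU.OMG
import Pool.Agent.Helper60.NU.EX1
import Pool.Agent.Helper5.NU.EXJ
import Pool.Agent.Helper38.NU.EX2
import Pool.Agent.Helper14.NU.Fam
import Pool.Agent.Helper25.NU.MNO
import Pool.Agent.Helper89.NU.NG
import Pool.Agent.Helper77.NU.FN1
import Pool.Agent.Helper85.NU.REA
import Pool.Agent.Helper82.NU.NSN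
import Pool.Agent.Helper96.NU.FN2
import Pool.Agent.Helper65.NU.CDN
import Pool.Agent.Helper8.NU.PAR
import Pool.Agent.Helper15.NU.IJ2
import Pool.Agent.Helper70.NU.NU2
import Pool.Agent.Helper50.NU.NU0
import Pool.Agent.Helper39.NU.IN2
import Pool.Agent.Helper32.NU.IN1
import Pool.Agent.Helper57.NU.SUP
import Pool.Agent.Helper32.NU.FLP
import Pool.Agent.Helper31.NU.Sla
import Pool.Agent.Helper75.NU.MRT
import Pool.Agent.Helper46.NU.DM1
import Pool.Agent.Helper49.NU.GM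
import Pool.Agent.Helper26.NU.Dom
import Pool.Agent.Helper54.NU.Rnd
import Pool.Agent.Helper27.NU.IJ1
import Pool.Agent.Helper73.NU.NU1
import Pool.Agent.Helper78.NU.Avo
import Pool.Agent.Helper5.NU.APX
import Pool.Agent.Helper73.NU.COH
import Pool.Agent.Helper33.NU.CAP
import Pool.Agent.Helper28.NU.ADD
import Pool.Agent.Helper86.NU.Non
import Pool.Agent.Helper49.NU.CC
import Pool.Agent.Helper83.NU.SYI
import Pool.Agent.Helper93.NU.Sya
import Pool.Agent.Helper13.NU.SYN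

/-! # The null ideal: add(𝒩) < non(𝒩) < cov(𝒩) < cof(𝒩) is consistent with ZFC.

The model is the two-valued quotient of the Boolean-valued universe over the complete Boolean
algebra of the measurable sets modulo the ideal `NU.Nul` of a system of random and generic
coordinates (`NU.Sy`). See `Pool/Agent/Helper46/NU/`. -/

namespace Pool.Agent.Results.MP_1fe1ca_lc.NullIdealOrder

open NU

/-- There is a model `(N, E)` of ZFC in which `add(𝒩) < non(𝒩) < cov(𝒩) < cof(𝒩)` for the ideal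
`𝒩` of Lebesgue null sets. -/
theorem result : ∃ (N : Type 1) (E : N → N → Prop),
    Pool.Agent.Helper97.Ku.IsZFC N E ∧ NU.Sep E := by
  have hSIZ : G_SIZ := PkSIZ.siz
  have hMZ : G_MZ := PkMZ.mz
  have hLC : G_LC := PkLC.lc
  have hBM : G_BM := PkBM.bm hMZ hLC
  have hCYL : G_CYL := PkCYL.cyl
  have hOVR : G_OVR := PkOVR.ovr_
  have hLB1 : G_LB1 := PkLB1.lb1
  have hUPD : G_UPD := PkUPD.upd
  have hLOC : G_LOC := PkLOC.loc
  have hLBS : G_LBS := PkLBS.lbs hLB1 hUPD hLOC hMZ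
  have hLB : G_LB := PkLB.lb hLBS
  have hBAI : G_BAI := PkBAI.bai
  have hSTAR : G_STAR := PkSTAR.star hBM hCYL hOVR hLB hBAI
  have hCCC : G_CCC := PkCCC.ccc hSTAR hBAI hMZ
  have hALG : G_ALG := PkALG.alg hCCC
  have hEHOM : G_EHOM := PkEHOM.ehom hBAI
  have hNAT : G_NAT := PkNAT.nat
  have hOMG : G_OMG := PkOMG.omg hNAT
  have hEX1 : G_EX1 := PkEX1.ex1
  have hEXJ : G_EXJ := PkEXJ.exj
  have hEX2 : G_EX2 := PkEX2.ex2 hEX1 hEXJ
  have hFAM : G_FAM := PkFAM.fam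
  have hMNO : G_MNO := PkMNO.mno
  have hNG : G_NG := PkNG.ng
  have hFN1 : G_FN1 := PkFN1.fn1 hNAT
  have hREA : G_REA := PkREA.rea hEHOM hNAT hFN1
  have hNSN : G_NSN := PkNSN.nsn hEHOM hEX1 hREA
  have hFN2 : G_FN2 := PkFN2.fn2 hNAT hFN1
  have hCDN : G_CDN := PkCDN.cdn hEHOM hFN1
  have hPAR : G_PAR := PkPAR.par
  have hIJ2 : G_IJ2 := PkIJ2.ij2 hEHOM hNAT hFN1 hFN2 hPAR hEX1 hCDN
  have hNU2 : G_NU2 := PkNU2.nu2 hEHOM hNAT hFN1 hFN2 hEX1 hEXJ hEX2 hREA hCDN hIJ2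
  have hNU0 : G_NU0 := PkNU0.nu0 hNG hNSN hNU2 hEHOM
  have hIN2 : G_IN2 := PkIN2.in2 hEX1 hFAM
  have hIN1 : G_IN1 := PkIN1.in1 hIN2 hREA
  have hSUP : G_SUP := PkSUP.sup
  have hFLP : G_FLP := PkFLP.flp
  have hSLA : G_SLA := PkSLA.sla hSTAR hBM hCYL hBAI hFLP hMZ
  have hMRT : G_MRT := PkMRT.mrt
  have hDM1 : G_DM1 := PkDM1.dm1 hSLA hMRT
  have hGM : G_GM := PkGM.gm
  have hDOM : G_DOM := PkDOM.dom hDM1 hGM
  have hRND : G_RND := PkRND.rnd hLOC hMZ hUPD hGM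
  have hIJ1 : G_IJ1 := PkIJ1.ij1 hNAT hFN1 hFN2 hEX1
  have hNU1 : G_NU1 := PkNU1.nu1 hEHOM hNAT hFN1 hFN2 hEX1 hEX2 hREA hIJ1
  have hAVO : G_AVO := PkAVO.avo hEHOM hSUP hDOM hRND hNSN hNU1
  have hAPX : G_APX := PkAPX.apx hSUP hMZ
  have hCOH : G_COH := PkCOH.coh hSTAR hBM hCYL hOVR hLOC hAPX hBAI hMZ
  have hCAP : G_CAP := PkCAP.cap hEHOM hSUP hCOH hNSN
  have hADD : G_ADD := PkADD.add hEX1 hEX2 hFAM hMNO hNU0 hIN1 hAVO hCAP
  have hNON : G_NON := PkNON.non hEX1 hEX2 hFAM hREA hIN2 hAVO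
  have hCC : G_CC := PkCC.cc hEX1 hEX2 hFAM hREA hNU0 hIN2 hAVO hCAP
  have hSYI : G_SYI := PkSYI.syi
  have hSYA : G_SYA := PkSYA.sya hSYI
  have hSYN : G_SYN := PkSYN.syn hSYA hSYI
  exact NU.main hSIZ hALG hEHOM hOMG hADD hNON hCC hSYN

end Pool.Agent.Results.MP_1fe1ca_lc.NullIdealOrder
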